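import Pool.Agent.helper88.Vis.Defs

set_option autoImplicit false

/-! MP_6b3417_co, module II-C1: enumeration of a row, and the two counting facts (II.3 a, b). -/

namespace Pool.Agent.helper55.Vis

open Pool.Agent.helper47.Vis Pool.Agent.helper88.Vis

theorem exists_enum (S : Finset (ℝ × ℝ)) (c d : ℝ × ℝ) (hd : d ≠ 0) (hS : ∀ p ∈ S, sd c d p = 0) :
    ∃ e, Enum S d e := by
  classical
  have hN : 0 < d.1 ^ 2 + d.2 ^ 2 := by
    rcases eq_or_ne d.1 0 with h1 | h1
    · have h2 : d.2 ≠ 0 := fun h2 => hd (Prod.ext h1 h2)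
      positivity
    · positivity
  set N : ℝ := d.1 ^ 2 + d.2 ^ 2 with hNdef
  let τ : ℝ × ℝ → ℝ := fun p => d.1 * (p.1 - c.1) + d.2 * (p.2 - c.2)
  have hrep : ∀ p ∈ S, p = c + (τ p / N) • d := by
    intro p hp
    have h := hS p hp
    simp only [sd] at h
    have h1 : τ p / N * d.1 = p.1 - c.1 := by
      rw [div_mul_eq_mul_div, div_eq_iff hN.ne']
      simp only [τ, hNdef]
      linear_combination d.2 * h
    have h2 : τ p / N * d.2 = p.2 - c.2 := by
      rw [div_mul_eq_mul_div, div_eq_iff hN.ne']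
      simp only [τ, hNdef]
      linear_combination (-d.1) * h
    ext
    · simp only [Prod.fst_add, Prod.smul_fst, smul_eq_mul]; linarith
    · simp only [Prod.snd_add, Prod.smul_snd, smul_eq_mul]; linarith
  have hinj : Set.InjOn τ (S : Set (ℝ × ℝ)) := by
    intro p hp q hq hpq
    rw [hrep p hp, hrep q hq, hpq]
  have hcard : (S.image τ).card = S.card := Finset.card_image_of_injOn hinj
  let f := (S.image τ).orderEmbOfFin hcard
  refine ⟨fun j => if h : j < S.card then c + (f ⟨j, h⟩ / N) • d else c, ?_, ?_, ?_⟩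
  · intro j hj
    simp only [hj, dif_pos]
    have hm : f ⟨j, hj⟩ ∈ S.image τ := Finset.orderEmbOfFin_mem _ hcard _
    obtain ⟨p, hp, hpe⟩ := Finset.mem_image.1 hm
    rw [← hpe, ← hrep p hp]
    exact hp
  · intro p hp
    have hm : τ p ∈ S.image τ := Finset.mem_image_of_mem _ hp
    have hr : τ p ∈ Set.range f := by
      rw [Finset.range_orderEmbOfFin]
      exact hm
    obtain ⟨j, hj⟩ := hr
    refine ⟨j, j.2, ?_⟩
    simp only [j.2, dif_pos, Fin.eta]
    rw [hj, ← hrep p hp]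
  · intro j k hjk hk
    have hj : j < S.card := lt_trans hjk hk
    simp only [hj, hk, dif_pos]
    have hlt : f ⟨j, hj⟩ < f ⟨k, hk⟩ := f.strictMono (by simpa using hjk)
    refine ⟨(f ⟨k, hk⟩ - f ⟨j, hj⟩) / N, div_pos (by linarith) hN, ?_⟩
    rw [add_assoc, ← add_smul]
    congr 2
    field_simp
    ring

/-- points strictly between on the line with positive parameter -/
lemma mem_openSegment_of_add (p d : ℝ × ℝ) (s t : ℝ) (hs : 0 < s) (ht : s < t) :
    p + s • d ∈ openSegment ℝ p (p + t • d) := by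
  have ht0 : 0 < t := lt_trans hs ht
  refine ⟨1 - s / t, s / t, ?_, div_pos hs ht0, by ring, ?_⟩
  · rw [sub_pos, div_lt_one ht0]; exact ht
  · ext
    · simp only [Prod.fst_add, Prod.smul_fst, smul_eq_mul]
      field_simp
      ring
    · simp only [Prod.snd_add, Prod.smul_snd, smul_eq_mul]
      field_simp
      ring

lemma Enum.between {S : Finset (ℝ × ℝ)} {d : ℝ × ℝ} {e : ℕ → ℝ × ℝ} (he : Enum S d e)
    {j k l : ℕ} (hjk : j < k) (hkl : k < l) (hl : l < S.card) :
    e k ∈ openSegment ℝ (e j) (e l) := by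
  obtain ⟨s, hs, hs'⟩ := he.lt j k hjk (lt_trans hkl hl)
  obtain ⟨t, ht, ht'⟩ := he.lt k l hkl hl
  have h : e l = e j + (s + t) • d := by rw [ht', hs', add_smul, add_assoc]
  rw [h, hs']
  exact mem_openSegment_of_add _ _ _ _ hs (by linarith)

lemma Enum.ne {S : Finset (ℝ × ℝ)} {d : ℝ × ℝ} (hd : d ≠ 0) {e : ℕ → ℝ × ℝ} (he : Enum S d e)
    {j k : ℕ} (hjk : j < k) (hk : k < S.card) : e j ≠ e k := by
  obtain ⟨t, ht, ht'⟩ := he.lt j k hjk hk
  intro h
  rw [ht'] at h
  have : t • d = 0 := by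
    have := h.symm
    simpa using this
  rcases smul_eq_zero.1 this with h1 | h1
  · exact ht.ne' h1
  · exact hd h1

/-- consecutive points of an enumeration have no point of `S` strictly between them -/
lemma Enum.consec {S : Finset (ℝ × ℝ)} {d : ℝ × ℝ} (hd : d ≠ 0) {e : ℕ → ℝ × ℝ} (he : Enum S d e)
    {j : ℕ} (hj : j + 1 < S.card) : ∀ x ∈ S, x ∉ openSegment ℝ (e j) (e (j + 1)) := by
  intro x hx hxs
  obtain ⟨k, hk, rfl⟩ := he.surj x hx
  -- linear functional along d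
  let g : ℝ × ℝ → ℝ := fun p => d.1 * p.1 + d.2 * p.2
  have hN : 0 < d.1 ^ 2 + d.2 ^ 2 := by
    rcases eq_or_ne d.1 0 with h1 | h1
    · have h2 : d.2 ≠ 0 := fun h2 => hd (Prod.ext h1 h2)
      positivity
    · positivity
  have hmono : ∀ a b, a < b → b < S.card → g (e a) < g (e b) := by
    intro a b hab hb
    obtain ⟨t, ht, ht'⟩ := he.lt a b hab hb
    simp only [g, ht', Prod.fst_add, Prod.snd_add, Prod.smul_fst, Prod.smul_snd, smul_eq_mul]
    nlinarith [mul_pos ht hN]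
  obtain ⟨a, b, ha, hb, hab, hx'⟩ := hxs
  have hgx : g (e k) = a * g (e j) + b * g (e (j + 1)) := by
    rw [← hx']
    simp only [g, Prod.fst_add, Prod.snd_add, Prod.smul_fst, Prod.smul_snd, smul_eq_mul]
    ring
  have hlt := hmono j (j + 1) (Nat.lt_succ_self j) hj
  have hb' : b = 1 - a := by linarith
  subst hb'
  have h1 : g (e j) < g (e k) := by rw [hgx]; nlinarith
  have h2 : g (e k) < g (e (j + 1)) := by rw [hgx]; nlinarith
  rcases lt_trichotomy k j with h | h | h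
  · have := hmono k j h (by omega)
    linarith
  · subst h; exact lt_irrefl _ h1
  · rcases Nat.lt_or_ge (j + 1) k with h' | h'
    · have := hmono (j + 1) k h' hk
      linarith
    · have : k = j + 1 := by omega
      subst this
      exact lt_irrefl _ h2

section chain

variable {H : ℕ} {V : ℕ → Finset (ℝ × ℝ)} {c d : ℕ → ℝ × ℝ}

lemma Chain.mem_succ (hC : Chain H V c d) {i : ℕ} (hi : i < H) {p : ℝ × ℝ} :
    p ∈ V (i + 1) ↔ p ∈ V i ∧ 0 < sd (c i) (d i) p := by
  rw [hC.step i hi, mem_fil]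

lemma mem_row {i : ℕ} {p : ℝ × ℝ} : p ∈ row V c d i ↔ p ∈ V i ∧ sd (c i) (d i) p = 0 := mem_fil

/-- The low point of `S_{i+2}`. -/
lemma Chain.low' (hC : Chain H V c d) {i : ℕ} (hi : i + 2 ≤ H) :
    ∃ u ∈ V (i + 2), sd (c (i + 2)) (d (i + 2)) u = 0 ∧
      ∀ p ∈ V (i + 2), sd (c (i + 1)) (d (i + 1)) u ≤ sd (c (i + 1)) (d (i + 1)) p :=
  hC.low (i + 1) (by omega)

/-- a blocker of `(s, u)` lies on line `i+1` -/
lemma blocker (hC : Chain H V c d) {i : ℕ} (hi : i + 2 ≤ H) {u : ℝ × ℝ} (hu : u ∈ V (i + 2))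
    (hulow : ∀ p ∈ V (i + 2), sd (c (i + 1)) (d (i + 1)) u ≤ sd (c (i + 1)) (d (i + 1)) p)
    {s r : ℝ × ℝ} (hs : 0 ≤ sd (c i) (d i) s) (hsn : sd (c (i + 1)) (d (i + 1)) s ≤ 0)
    (hr : r ∈ V i) (hrs : r ∈ openSegment ℝ s u) : r ∈ row V c d (i + 1) := by
  obtain ⟨hu1, hu1'⟩ := (Chain.mem_succ hC (by omega : i + 1 < H)).1 hu
  obtain ⟨hu0, hu0'⟩ := (Chain.mem_succ hC (by omega : i < H)).1 hu1
  obtain ⟨a, b, ha, hb, hab, h0⟩ := sd_openSegment (c := c i) (d := d i) hrs
  have hr1 : r ∈ V (i + 1) := (Chain.mem_succ hC (by omega)).2 ⟨hr, by rw [h0]; positivity⟩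
  have hnn := hC.nonneg (i + 1) (by omega) r hr1
  rcases hnn.eq_or_lt with h | h
  · exact mem_row.2 ⟨hr1, h.symm⟩
  · exfalso
    have hr2 : r ∈ V (i + 2) := (Chain.mem_succ hC (by omega)).2 ⟨hr1, h⟩
    have hle := hulow r hr2
    obtain ⟨a', b', ha', hb', hab', h1⟩ := sd_openSegment (c := c (i + 1)) (d := d (i + 1)) hrs
    have : b' = 1 - a' := by linarith
    subst this
    nlinarith

lemma key (hC : Chain H V c d) (i : ℕ) (hi : i + 2 ≤ H) (u : ℝ × ℝ) (hu : u ∈ V (i + 2))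
    (hulow : ∀ p ∈ V (i + 2), sd (c (i + 1)) (d (i + 1)) u ≤ sd (c (i + 1)) (d (i + 1)) p)
    (Q : ℝ × ℝ → Prop) (hQc : ∀ s s' x, Q s → Q s' → x ∈ openSegment ℝ s s' → Q x)
    (hQn : ∀ s, Q s → sd (c (i + 1)) (d (i + 1)) s < 0) (B : Finset (ℝ × ℝ))
    (hB : ∀ s, Q s → ∀ r ∈ V i, r ∈ openSegment ℝ s u → r ∈ row V c d (i + 1) → r ∈ B) :
    (fil (V i) (fun p => sd (c i) (d i) p = 0 ∧ Q p)).card ≤ 2 * B.card + 1 := by
  classical
  by_contra hcon
  push Not at hcon
  set S := fil (V i) (fun p => sd (c i) (d i) p = 0 ∧ Q p) with hS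
  have hmemS : ∀ p, p ∈ S ↔ p ∈ V i ∧ sd (c i) (d i) p = 0 ∧ Q p := fun p => mem_fil
  have hdi := hC.dne i (by omega)
  obtain ⟨e, he⟩ := exists_enum S (c i) (d i) hdi (fun p hp => ((hmemS p).1 hp).2.1)
  obtain ⟨hu1, hu1'⟩ := (Chain.mem_succ hC (by omega : i + 1 < H)).1 hu
  obtain ⟨hu0, hu0'⟩ := (Chain.mem_succ hC (by omega : i < H)).1 hu1
  -- every pair contains a blocked point
  have hblk : ∀ k < B.card + 1, ∃ j, (j = 2 * k ∨ j = 2 * k + 1) ∧ ∃ r ∈ B,
      r ∈ openSegment ℝ (e j) u := by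
    intro k hk
    by_contra hno
    push Not at hno
    have hj0 : 2 * k < S.card := by omega
    have hj1 : 2 * k + 1 < S.card := by omega
    have hn0 := hno (2 * k) (Or.inl rfl)
    have hn1 := hno (2 * k + 1) (Or.inr rfl)
    have hs0 := (hmemS _).1 (he.mem _ hj0)
    have hs1 := (hmemS _).1 (he.mem _ hj1)
    -- two consecutive points of row i+1
    have hdi1 := hC.dne (i + 1) (by omega)
    obtain ⟨e', he'⟩ := exists_enum (row V c d (i + 1)) (c (i + 1)) (d (i + 1)) hdi1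
      (fun p hp => (mem_row.1 hp).2)
    have h2 := hC.two (i + 1) (by omega)
    have hz0 := he'.mem 0 (by omega)
    have hz1 := he'.mem 1 (by omega)
    obtain ⟨hz0V, hz00⟩ := mem_row.1 hz0
    obtain ⟨hz1V, hz10⟩ := mem_row.1 hz1
    obtain ⟨hz0i, hz0p⟩ := (Chain.mem_succ hC (by omega : i < H)).1 hz0V
    obtain ⟨hz1i, hz1p⟩ := (Chain.mem_succ hC (by omega : i < H)).1 hz1V
    -- visibility facts
    have sees_sz : ∀ s z, s ∈ S → z ∈ V (i + 1) → sd (c (i + 1)) (d (i + 1)) z = 0 →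
        Sees (V i : Set (ℝ × ℝ)) s z := by
      intro s z hs hz hz0
      obtain ⟨hsV, hs0, hsQ⟩ := (hmemS s).1 hs
      have hsn := hQn s hsQ
      refine ⟨?_, ?_⟩
      · rintro rfl; linarith
      · intro r hr hrs
        obtain ⟨a, b, ha, hb, hab, h0⟩ := sd_openSegment (c := c i) (d := d i) hrs
        obtain ⟨a', b', ha', hb', hab', h1⟩ :=
          sd_openSegment (c := c (i + 1)) (d := d (i + 1)) hrs
        have hzp := ((Chain.mem_succ hC (by omega : i < H)).1 hz).2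
        have hr1 : r ∈ V (i + 1) := (Chain.mem_succ hC (by omega)).2
          ⟨hr, by rw [h0, hs0]; nlinarith [mul_pos hb hzp]⟩
        have hnn := hC.nonneg (i + 1) (by omega) r hr1
        rw [h1, hz0] at hnn
        nlinarith [mul_pos ha' (neg_pos.2 hsn)]
    have sees_zu : ∀ z, z ∈ V (i + 1) → sd (c (i + 1)) (d (i + 1)) z = 0 →
        Sees (V i : Set (ℝ × ℝ)) z u := by
      intro z hz hz0
      have hzp := ((Chain.mem_succ hC (by omega : i < H)).1 hz).2
      refine ⟨?_, ?_⟩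
      · rintro rfl; linarith
      · intro r hr hrs
        have := blocker hC hi hu hulow hzp.le hz0.le hr hrs
        obtain ⟨a', b', ha', hb', hab', h1⟩ :=
          sd_openSegment (c := c (i + 1)) (d := d (i + 1)) hrs
        have h := (mem_row.1 this).2
        rw [h1, hz0] at h
        nlinarith [mul_pos hb' hu1']
    have sees_su : ∀ s, s ∈ S → (∀ r ∈ B, r ∉ openSegment ℝ s u) →
        Sees (V i : Set (ℝ × ℝ)) s u := by
      intro s hs hno'
      obtain ⟨hsV, hs0, hsQ⟩ := (hmemS s).1 hs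
      have hsn := hQn s hsQ
      refine ⟨?_, ?_⟩
      · rintro rfl; linarith
      · intro r hr hrs
        exact hno' r (hB s hsQ r hr hrs (blocker hC hi hu hulow hs0.ge hsn.le hr hrs)) hrs
    have sees_ss : Sees (V i : Set (ℝ × ℝ)) (e (2 * k)) (e (2 * k + 1)) := by
      refine ⟨Enum.ne hdi he (Nat.lt_succ_self _) hj1, ?_⟩
      intro r hr hrs
      refine Enum.consec hdi he hj1 r ?_ hrs
      obtain ⟨a, b, ha, hb, hab, h0⟩ := sd_openSegment (c := c i) (d := d i) hrs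
      refine (hmemS r).2 ⟨hr, ?_, hQc _ _ _ hs0.2.2 hs1.2.2 hrs⟩
      rw [h0, hs0.2.1, hs1.2.1]; ring
    have sees_zz : Sees (V i : Set (ℝ × ℝ)) (e' 0) (e' 1) := by
      refine ⟨Enum.ne hdi1 he' (by norm_num) (by omega), ?_⟩
      intro r hr hrs
      refine Enum.consec hdi1 he' (j := 0) (by omega) r ?_ hrs
      obtain ⟨a, b, ha, hb, hab, h0⟩ := sd_openSegment (c := c i) (d := d i) hrs
      obtain ⟨a', b', ha', hb', hab', h1⟩ :=
        sd_openSegment (c := c (i + 1)) (d := d (i + 1)) hrs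
      refine mem_row.2 ⟨(Chain.mem_succ hC (by omega)).2 ⟨hr, by rw [h0]; positivity⟩, ?_⟩
      rw [h1, hz00, hz10]; ring
    exact (hC.K5 i (by omega)).elim5 (a := e (2 * k)) (b := e (2 * k + 1)) (c := e' 0) (d := e' 1)
      (e := u) hs0.1 hs1.1 hz0i hz1i hu0 sees_ss
      (sees_sz _ _ (he.mem _ hj0) hz0V hz00) (sees_sz _ _ (he.mem _ hj0) hz1V hz10)
      (sees_su _ (he.mem _ hj0) hn0) (sees_sz _ _ (he.mem _ hj1) hz0V hz00)
      (sees_sz _ _ (he.mem _ hj1) hz1V hz10) (sees_su _ (he.mem _ hj1) hn1) sees_zz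
      (sees_zu _ hz0V hz00) (sees_zu _ hz1V hz10)
  -- pigeonhole
  choose! J hJ using hblk
  have hJ' : ∀ k < B.card + 1, ∃ r ∈ B, r ∈ openSegment ℝ (e (J k)) u := fun k hk => (hJ k hk).2
  choose! R hR using hJ'
  obtain ⟨k, hk, k', hk', hne, heq⟩ := Finset.exists_ne_map_eq_of_card_lt_of_maps_to
    (s := Finset.range (B.card + 1)) (t := B) (f := R) (by simp)
    (fun k hk => (hR k (Finset.mem_range.1 hk)).1)
  have hk1 := Finset.mem_range.1 hk
  have hk2 := Finset.mem_range.1 hk'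
  have hr1 := (hR k hk1).2
  have hr2 := (hR k' hk2).2
  rw [← heq] at hr2
  have hj1 := (hJ k hk1).1
  have hj2 := (hJ k' hk2).1
  have hJlt1 : J k < S.card := by omega
  have hJlt2 : J k' < S.card := by omega
  have hJne : J k ≠ J k' := by omega
  have hs1 := (hmemS _).1 (he.mem _ hJlt1)
  have hs2 := (hmemS _).1 (he.mem _ hJlt2)
  have heq' : e (J k) = e (J k') := by
    obtain ⟨a, b, ha, hb, hab, h1⟩ := hr1
    obtain ⟨a', b', ha', hb', hab', h2⟩ := hr2
    have e1 : sd (c i) (d i) (R k) = b * sd (c i) (d i) u := by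
      have hb1 : a = 1 - b := by linarith
      have := hs1.2.1
      rw [← h1]
      subst hb1
      simp only [sd, Prod.fst_add, Prod.snd_add, Prod.smul_fst, Prod.smul_snd, smul_eq_mul] at this ⊢
      linear_combination (1 - b) * this
    have e2 : sd (c i) (d i) (R k) = b' * sd (c i) (d i) u := by
      have hb1 : a' = 1 - b' := by linarith
      have := hs2.2.1
      rw [← h2]
      subst hb1
      simp only [sd, Prod.fst_add, Prod.snd_add, Prod.smul_fst, Prod.smul_snd, smul_eq_mul] at this ⊢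
      linear_combination (1 - b') * this
    have hbb : b = b' := by
      have : b * sd (c i) (d i) u = b' * sd (c i) (d i) u := by rw [← e1, e2]
      exact mul_right_cancel₀ hu0'.ne' this
    have haa : a = a' := by linarith
    subst hbb haa
    have h3 : a • e (J k) = a • e (J k') := by
      have : a • e (J k) + b • u = a • e (J k') + b • u := by rw [h1, h2]
      exact add_right_cancel this
    exact smul_right_injective _ ha.ne' h3
  rcases lt_or_gt_of_ne hJne with h | h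
  · exact Enum.ne hdi he h hJlt2 heq'
  · exact Enum.ne hdi he h hJlt1 heq'.symm

lemma sd_neg_convex {c d s s' x : ℝ × ℝ} (hs : sd c d s < 0) (hs' : sd c d s' < 0)
    (hx : x ∈ openSegment ℝ s s') : sd c d x < 0 := by
  obtain ⟨a, b, ha, hb, hab, h⟩ := sd_openSegment (c := c) (d := d) hx
  rw [h]
  nlinarith [mul_pos ha (neg_pos.2 hs), mul_pos hb (neg_pos.2 hs')]

lemma sd_nonneg_convex {c d s s' x : ℝ × ℝ} (hs : 0 ≤ sd c d s) (hs' : 0 ≤ sd c d s')
    (hx : x ∈ openSegment ℝ s s') : 0 ≤ sd c d x := by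
  obtain ⟨a, b, ha, hb, hab, h⟩ := sd_openSegment (c := c) (d := d) hx
  rw [h]
  positivity

theorem chain_half (H : ℕ) (V : ℕ → Finset (ℝ × ℝ)) (c d : ℕ → ℝ × ℝ) (hC : Chain H V c d)
    (i : ℕ) (hi : i + 2 ≤ H) : (row V c d i).card ≤ 2 * (row V c d (i + 1)).card + 3 := by
  classical
  obtain ⟨u, hu, -, hulow⟩ := Chain.low' hC hi
  have h1 := key hC i hi u hu hulow (fun p => sd (c (i + 1)) (d (i + 1)) p < 0)
    (fun s s' x hs hs' hx => sd_neg_convex hs hs' hx) (fun s hs => hs) (row V c d (i + 1))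
    (fun s _ r _ _ h => h)
  have h2 := hC.bad i (by omega)
  have hsub : row V c d i ⊆ fil (V i) (fun p => sd (c i) (d i) p = 0 ∧
      0 ≤ sd (c (i + 1)) (d (i + 1)) p) ∪ fil (V i) (fun p => sd (c i) (d i) p = 0 ∧
      sd (c (i + 1)) (d (i + 1)) p < 0) := by
    intro p hp
    obtain ⟨hpV, hp0⟩ := mem_row.1 hp
    rcases le_or_gt 0 (sd (c (i + 1)) (d (i + 1)) p) with h | h
    · exact Finset.mem_union_left _ (mem_fil.2 ⟨hpV, hp0, h⟩)
    · exact Finset.mem_union_right _ (mem_fil.2 ⟨hpV, hp0, h⟩)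
  have h3 := (Finset.card_le_card hsub).trans (Finset.card_union_le _ _)
  omega

theorem chain_interval (H : ℕ) (V : ℕ → Finset (ℝ × ℝ)) (c d : ℕ → ℝ × ℝ) (hC : Chain H V c d)
    (i : ℕ) (hi : i + 2 ≤ H) (e : ℕ → ℝ × ℝ) (he : Enum (row V c d i) (d i) e) :
    ∃ lo hi' : ℕ, lo ≤ hi' ∧ hi' ≤ (row V c d i).card ∧ (row V c d i).card + lo ≤ hi' + 7 ∧
      ∀ j < (row V c d i).card, ((lo ≤ j ∧ j < hi') ↔
        (sd (c (i + 1)) (d (i + 1)) (e j) < 0 ∧ sd (c (i + 2)) (d (i + 2)) (e j) < 0)) := by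
  classical
  obtain ⟨u, hu, hu0, hulow⟩ := Chain.low' hC hi
  have hbad := hC.bad (i + 1) (by omega)
  have h1 := key hC i hi u hu hulow
    (fun p => sd (c (i + 1)) (d (i + 1)) p < 0 ∧ 0 ≤ sd (c (i + 2)) (d (i + 2)) p)
    (fun s s' x hs hs' hx => ⟨sd_neg_convex hs.1 hs'.1 hx, sd_nonneg_convex hs.2 hs'.2 hx⟩)
    (fun s hs => hs.1)
    (fil (V (i + 1)) (fun p => sd (c (i + 1)) (d (i + 1)) p = 0 ∧
      0 ≤ sd (c (i + 1 + 1)) (d (i + 1 + 1)) p))
    (fun s hs r hr hrs h => by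
      obtain ⟨h5, h6⟩ := mem_row.1 h
      refine mem_fil.2 ⟨h5, h6, ?_⟩
      exact sd_nonneg_convex (c := c (i + 2)) (d := d (i + 2)) hs.2 hu0.ge hrs)
  have h2 := hC.bad i (by omega)
  let good : ℕ → Prop := fun j =>
    sd (c (i + 1)) (d (i + 1)) (e j) < 0 ∧ sd (c (i + 2)) (d (i + 2)) (e j) < 0
  let G : Finset ℕ := (Finset.range (row V c d i).card).filter good
  have hGmem : ∀ j, j ∈ G ↔ j < (row V c d i).card ∧ good j := by
    intro j; simp [G]
  have hsub : row V c d i ⊆ (fil (V i) (fun p => sd (c i) (d i) p = 0 ∧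
      0 ≤ sd (c (i + 1)) (d (i + 1)) p) ∪ fil (V i) (fun p => sd (c i) (d i) p = 0 ∧
      (sd (c (i + 1)) (d (i + 1)) p < 0 ∧ 0 ≤ sd (c (i + 2)) (d (i + 2)) p))) ∪ G.image e := by
    intro p hp
    obtain ⟨hpV, hp0⟩ := mem_row.1 hp
    rcases le_or_gt 0 (sd (c (i + 1)) (d (i + 1)) p) with h | h
    · exact Finset.mem_union_left _ (Finset.mem_union_left _ (mem_fil.2 ⟨hpV, hp0, h⟩))
    · rcases le_or_gt 0 (sd (c (i + 2)) (d (i + 2)) p) with h' | h'
      · exact Finset.mem_union_left _ (Finset.mem_union_right _ (mem_fil.2 ⟨hpV, hp0, h, h'⟩))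
      · obtain ⟨j, hj, rfl⟩ := he.surj p hp
        exact Finset.mem_union_right _ (Finset.mem_image_of_mem _ ((hGmem j).2 ⟨hj, h, h'⟩))
  have h3 := (Finset.card_le_card hsub).trans (Finset.card_union_le _ _)
  have h4 := Finset.card_union_le (fil (V i) (fun p => sd (c i) (d i) p = 0 ∧
      0 ≤ sd (c (i + 1)) (d (i + 1)) p)) (fil (V i) (fun p => sd (c i) (d i) p = 0 ∧
      (sd (c (i + 1)) (d (i + 1)) p < 0 ∧ 0 ≤ sd (c (i + 2)) (d (i + 2)) p)))
  have h5 : (G.image e).card ≤ G.card := Finset.card_image_le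
  have hcnt : (row V c d i).card ≤ G.card + 7 := by omega
  rcases G.eq_empty_or_nonempty with hG | hG
  · refine ⟨0, 0, le_rfl, Nat.zero_le _, ?_, ?_⟩
    · rw [hG] at hcnt; simpa using hcnt
    · intro j hj
      constructor
      · rintro ⟨-, h⟩; exact absurd h (Nat.not_lt_zero _)
      · intro h
        have : j ∈ G := (hGmem j).2 ⟨hj, h⟩
        rw [hG] at this
        exact absurd this (Finset.notMem_empty _)
  · have hmin := G.min'_mem hG
    have hmax := G.max'_mem hG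
    have hle : G.min' hG ≤ G.max' hG := Finset.min'_le _ _ hmax
    have hconv : ∀ j, G.min' hG ≤ j → j < G.max' hG + 1 → j ∈ G := by
      intro j hj1 hj2
      rcases hj1.eq_or_lt with h | h
      · rw [← h]; exact hmin
      · rcases (Nat.lt_succ_iff.1 hj2).eq_or_lt with h' | h'
        · rw [h']; exact hmax
        · have hx := Enum.between he h h' ((hGmem _).1 hmax).1
          have g1 := ((hGmem _).1 hmin).2
          have g2 := ((hGmem _).1 hmax).2
          exact (hGmem j).2 ⟨lt_trans h' ((hGmem _).1 hmax).1,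
            sd_neg_convex g1.1 g2.1 hx, sd_neg_convex g1.2 g2.2 hx⟩
    have hGI : G = Finset.Ico (G.min' hG) (G.max' hG + 1) := by
      ext j
      rw [Finset.mem_Ico]
      constructor
      · intro hj
        exact ⟨Finset.min'_le _ _ hj, Nat.lt_succ_of_le (Finset.le_max' _ _ hj)⟩
      · rintro ⟨h6, h7⟩; exact hconv j h6 h7
    have hGc : G.card = G.max' hG + 1 - G.min' hG := by
      conv_lhs => rw [hGI]
      exact Nat.card_Ico _ _
    refine ⟨G.min' hG, G.max' hG + 1, by omega, ((hGmem _).1 hmax).1, by omega, ?_⟩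
    intro j hj
    constructor
    · rintro ⟨h6, h7⟩
      exact ((hGmem j).1 (hconv j h6 h7)).2
    · intro h
      have : j ∈ G := (hGmem j).2 ⟨hj, h⟩
      rw [hGI, Finset.mem_Ico] at this
      exact this

end chain

end Pool.Agent.helper55.Vis
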